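import Pool.Agent.H59.L.S8.Y506.RG.Stm

set_option autoImplicit false

/-! Project RG, job T1: transport of a log-concave density to its exponential tilts. -/

namespace Pool.Agent.Y901.RG

open MeasureTheory Set Filter Topology
open Pool.Agent.Y506.RG

theorem int_base {c : ℝ} (hc : 0 < c) :
    Integrable (fun s : ℝ => (1 + s ^ 4) * Real.exp (-(c * |s|))) := by
  have hK : ∀ s : ℝ, (1 + s ^ 2) * (1 + s ^ 4) ≤
      (1 + 2 / c ^ 2 + 24 / c ^ 4 + 720 / c ^ 6) * Real.exp (c * |s|) := by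
    intro s
    have h0 : 1 ≤ Real.exp (c * |s|) := Real.one_le_exp (by positivity)
    have h1 : ∀ n : ℕ, |s| ^ n ≤ (n.factorial : ℝ) / c ^ n * Real.exp (c * |s|) := by
      intro n
      have h := Real.pow_div_factorial_le_exp (x := c * |s|) (by positivity) n
      rw [div_le_iff₀ (by positivity), mul_pow] at h
      rw [div_mul_eq_mul_div, le_div_iff₀ (by positivity)]
      linarith
    have h2 := h1 2
    have h4 := h1 4
    have h6 := h1 6
    have e2 : |s| ^ 2 = s ^ 2 := by rw [sq_abs]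
    have e4 : |s| ^ 4 = s ^ 4 := by
      rw [show (4 : ℕ) = 2 * 2 from rfl, pow_mul, sq_abs, ← pow_mul]
    have e6 : |s| ^ 6 = s ^ 6 := by
      rw [show (6 : ℕ) = 2 * 3 from rfl, pow_mul, sq_abs, ← pow_mul]
    rw [e2] at h2
    rw [e4] at h4
    rw [e6] at h6
    simp only [Nat.factorial] at h2 h4 h6
    norm_num at h2 h4 h6
    nlinarith
  have h3 : Integrable (fun s : ℝ => (1 + 2 / c ^ 2 + 24 / c ^ 4 + 720 / c ^ 6) *
      (1 + s ^ 2)⁻¹) := integrable_inv_one_add_sq.const_mul _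
  refine h3.mono' (by fun_prop) ?_
  refine Filter.Eventually.of_forall fun s => ?_
  have h4 : 0 ≤ (1 + s ^ 4) * Real.exp (-(c * |s|)) := by positivity
  rw [Real.norm_of_nonneg h4, Real.exp_neg, ← div_eq_mul_inv, ← div_eq_mul_inv,
    div_le_div_iff₀ (Real.exp_pos _) (by positivity)]
  linarith [hK s]

variable {f : ℝ → ℝ} {C : ℝ}

theorem tilt_le (hC : 1 ≤ C) (_hf : ND f) (ht : ∀ s, f s ≤ C * Real.exp (-|s| / C)) {a : ℝ}
    (ha : |a| < 1 / (2 * C)) (s : ℝ) :
    f s * Real.exp (a * s) ≤ C * Real.exp (-(1 / (2 * C) * |s|)) := by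
  have hC0 : 0 < C := by linarith
  have h1 : a * s ≤ 1 / (2 * C) * |s| := by
    calc a * s ≤ |a * s| := le_abs_self _
      _ = |a| * |s| := abs_mul _ _
      _ ≤ 1 / (2 * C) * |s| := mul_le_mul_of_nonneg_right ha.le (abs_nonneg _)
  calc f s * Real.exp (a * s) ≤ C * Real.exp (-|s| / C) * Real.exp (1 / (2 * C) * |s|) :=
        mul_le_mul (ht s) (Real.exp_le_exp.2 h1) (Real.exp_pos _).le (by positivity)
    _ = C * Real.exp (-(1 / (2 * C) * |s|)) := by
        rw [mul_assoc, ← Real.exp_add]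
        congr 2
        field_simp
        ring

theorem int_gen (hC : 1 ≤ C) (hf : ND f) (ht : ∀ s, f s ≤ C * Real.exp (-|s| / C)) {a : ℝ}
    (ha : |a| < 1 / (2 * C)) (g : ℝ → ℝ) (hg : Continuous g) (hgb : ∀ s, |g s| ≤ 1 + s ^ 4) :
    Integrable (fun s => g s * f s * Real.exp (a * s)) := by
  have hC0 : 0 < C := by linarith
  have h1 := (int_base (c := 1 / (2 * C)) (by positivity)).const_mul C
  have hfc := hf.cont
  refine h1.mono' (by fun_prop) ?_
  refine Filter.Eventually.of_forall fun s => ?_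
  have h2 := tilt_le hC hf ht ha s
  have h3 : 0 ≤ f s * Real.exp (a * s) := mul_nonneg (hf.pos s).le (Real.exp_pos _).le
  rw [mul_assoc, norm_mul, Real.norm_eq_abs, Real.norm_of_nonneg h3]
  calc |g s| * (f s * Real.exp (a * s)) ≤ (1 + s ^ 4) * (C * Real.exp (-(1 / (2 * C) * |s|))) :=
        mul_le_mul (hgb s) h2 h3 (by positivity)
    _ = C * ((1 + s ^ 4) * Real.exp (-(1 / (2 * C) * |s|))) := by ring

theorem int_0 (hC : 1 ≤ C) (hf : ND f) (ht : ∀ s, f s ≤ C * Real.exp (-|s| / C)) {a : ℝ}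
    (ha : |a| < 1 / (2 * C)) : Integrable (fun s => f s * Real.exp (a * s)) := by
  have h := int_gen hC hf ht ha (fun _ => 1) continuous_const (fun s => by
    rw [abs_one]
    have : 0 ≤ s ^ 4 := by positivity
    linarith)
  simpa using h

theorem abs_le_quart (s : ℝ) : |s| ≤ 1 + s ^ 4 := by
  have h1 : s ^ 4 = |s| ^ 4 := by
    rw [show (4 : ℕ) = 2 * 2 from rfl, pow_mul |s|, sq_abs, ← pow_mul]
  rw [h1]
  nlinarith [sq_nonneg (|s| - 1), sq_nonneg (|s| ^ 2 - 1), abs_nonneg s]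

theorem int_1 (hC : 1 ≤ C) (hf : ND f) (ht : ∀ s, f s ≤ C * Real.exp (-|s| / C)) {a : ℝ}
    (ha : |a| < 1 / (2 * C)) : Integrable (fun s => s * f s * Real.exp (a * s)) :=
  int_gen hC hf ht ha (fun s => s) continuous_id abs_le_quart

theorem der_set (hC : 1 ≤ C) (hf : ND f) (ht : ∀ s, f s ≤ C * Real.exp (-|s| / C)) {a : ℝ}
    (ha : |a| < 1 / (2 * C)) (S : Set ℝ) :
    HasDerivAt (fun b => ∫ s in S, f s * Real.exp (b * s))
      (∫ s in S, s * f s * Real.exp (a * s)) a := by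
  have hC0 : 0 < C := by linarith
  have hfc := hf.cont
  have h1 := (int_base (c := 1 / (2 * C)) (by positivity)).const_mul C
  refine (hasDerivAt_integral_of_dominated_loc_of_deriv_le (s := {b | |b| < 1 / (2 * C)})
    (F := fun b s => f s * Real.exp (b * s)) (F' := fun b s => s * f s * Real.exp (b * s))
    (bound := fun s => C * ((1 + s ^ 4) * Real.exp (-(1 / (2 * C) * |s|))))
    ((isOpen_lt continuous_abs continuous_const).mem_nhds ha) ?_ ?_ ?_ ?_ ?_ ?_).2
  · refine Filter.Eventually.of_forall fun b => ?_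
    exact Continuous.aestronglyMeasurable (by fun_prop)
  · exact (int_0 hC hf ht ha).restrict
  · exact Continuous.aestronglyMeasurable (by fun_prop)
  · refine Filter.Eventually.of_forall fun s b hb => ?_
    have h2 := tilt_le hC hf ht hb s
    have h3 : 0 ≤ f s * Real.exp (b * s) := mul_nonneg (hf.pos s).le (Real.exp_pos _).le
    rw [mul_assoc, norm_mul, Real.norm_eq_abs, Real.norm_of_nonneg h3]
    calc |s| * (f s * Real.exp (b * s)) ≤ (1 + s ^ 4) * (C * Real.exp (-(1 / (2 * C) * |s|))) :=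
          mul_le_mul (abs_le_quart s) h2 h3 (by positivity)
      _ = C * ((1 + s ^ 4) * Real.exp (-(1 / (2 * C) * |s|))) := by ring
  · exact h1.restrict
  · refine Filter.Eventually.of_forall fun s b _ => ?_
    have h4 : HasDerivAt (fun b : ℝ => b * s) (1 * s) b := (hasDerivAt_id b).mul_const s
    have h5 := (h4.exp).const_mul (f s)
    refine h5.congr_deriv ?_
    ring

theorem der_Z (hC : 1 ≤ C) (hf : ND f) (ht : ∀ s, f s ≤ C * Real.exp (-|s| / C)) {a : ℝ}
    (ha : |a| < 1 / (2 * C)) : HasDerivAt (Z0 f) (Z1 f a) a := by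
  have h := der_set hC hf ht ha univ
  simp only [Measure.restrict_univ] at h
  exact h

/-- the derivative of the incomplete moment -/
theorem der_N (hC : 1 ≤ C) (hf : ND f) (ht : ∀ s, f s ≤ C * Real.exp (-|s| / C)) {a : ℝ}
    (ha : |a| < 1 / (2 * C)) (x : ℝ) :
    HasFDerivAt (fun w : ℝ × ℝ => N0 f w.1 w.2)
      ((f x * Real.exp (a * x)) • ContinuousLinearMap.fst ℝ ℝ ℝ +
        (N1 f x a) • ContinuousLinearMap.snd ℝ ℝ ℝ) (x, a) := by
  have hfc := hf.cont
  have hJ : HasFDerivAt (fun w : ℝ × ℝ => ∫ s in x..w.1, f s * Real.exp (w.2 * s))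
      ((f x * Real.exp (a * x)) • ContinuousLinearMap.fst ℝ ℝ ℝ) (x, a) := by
    refine HasFDerivAt.of_isLittleO ?_
    rw [Asymptotics.isLittleO_iff]
    intro c hc
    have hcont : ContinuousAt (fun w : ℝ × ℝ => f w.1 * Real.exp (w.2 * w.1)) (x, a) :=
      Continuous.continuousAt (by fun_prop)
    obtain ⟨δ, hδ, h1⟩ := Metric.continuousAt_iff.1 hcont c hc
    filter_upwards [Metric.ball_mem_nhds (x, a) hδ] with w hw
    rw [Metric.mem_ball] at hw
    have hw1 : dist w.1 x < δ := lt_of_le_of_lt (le_max_left _ _) hw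
    have hw2 : dist w.2 a < δ := lt_of_le_of_lt (le_max_right _ _) hw
    have h2 : (∫ s in x..w.1, f s * Real.exp (w.2 * s)) -
        (∫ s in x..(x, a).1, f s * Real.exp ((x, a).2 * s)) -
        ((f x * Real.exp (a * x)) • ContinuousLinearMap.fst ℝ ℝ ℝ) (w - (x, a)) =
        ∫ s in x..w.1, (f s * Real.exp (w.2 * s) - f x * Real.exp (a * x)) := by
      rw [intervalIntegral.integral_sub (Continuous.intervalIntegrable (by fun_prop) _ _)
        (Continuous.intervalIntegrable (by fun_prop) _ _)]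
      simp
      ring
    rw [h2]
    refine (intervalIntegral.norm_integral_le_of_norm_le_const (C := c) ?_).trans ?_
    · intro s hs
      have h3 : dist s x < δ := by
        refine lt_of_le_of_lt ?_ hw1
        rw [Real.dist_eq, Real.dist_eq]
        exact (abs_sub_left_of_mem_uIcc (uIoc_subset_uIcc hs))
      have h4 := h1 (show dist (s, w.2) (x, a) < δ from max_lt h3 hw2)
      rw [Real.dist_eq] at h4
      exact h4.le
    · refine mul_le_mul_of_nonneg_left ?_ hc.le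
      exact norm_fst_le (w - (x, a))
  have hN : HasFDerivAt (fun w : ℝ × ℝ => N0 f x w.2)
      ((N1 f x a) • ContinuousLinearMap.snd ℝ ℝ ℝ) (x, a) := by
    have h1 : HasDerivAt (fun b => N0 f x b) (N1 f x a) a := der_set hC hf ht ha (Iic x)
    have h2 := h1.comp_hasFDerivAt (x, a) (f := fun w : ℝ × ℝ => w.2)
      (ContinuousLinearMap.snd ℝ ℝ ℝ).hasFDerivAt
    exact h2
  have h3 := hJ.add hN
  refine h3.congr_of_eventuallyEq ?_
  have h4 : ∀ᶠ w : ℝ × ℝ in 𝓝 (x, a), |w.2| < 1 / (2 * C) :=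
    (isOpen_lt (by fun_prop) continuous_const).mem_nhds ha
  filter_upwards [h4] with w hw
  have h5 := intervalIntegral.integral_Iic_sub_Iic (μ := volume) (a := x) (b := w.1)
    (f := fun s => f s * Real.exp (w.2 * s)) (int_0 hC hf ht hw).integrableOn
    (int_0 hC hf ht hw).integrableOn
  show N0 f w.1 w.2 = (∫ s in x..w.1, f s * Real.exp (w.2 * s)) + N0 f x w.2
  rw [← h5]
  unfold N0
  ring

theorem N0_mono (hC : 1 ≤ C) (hf : ND f) (ht : ∀ s, f s ≤ C * Real.exp (-|s| / C)) {a : ℝ}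
    (ha : |a| < 1 / (2 * C)) : StrictMono (fun x => N0 f x a) := by
  intro x y hxy
  have hfc := hf.cont
  have h5 := intervalIntegral.integral_Iic_sub_Iic (μ := volume) (a := x) (b := y)
    (f := fun s => f s * Real.exp (a * s)) (int_0 hC hf ht ha).integrableOn
    (int_0 hC hf ht ha).integrableOn
  have h6 : 0 < ∫ s in x..y, f s * Real.exp (a * s) :=
    intervalIntegral.intervalIntegral_pos_of_pos_on
      (Continuous.intervalIntegrable (by fun_prop) _ _)
      (fun s _ => mul_pos (hf.pos s) (Real.exp_pos _)) hxy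
  rw [← h5] at h6
  show N0 f x a < N0 f y a
  unfold N0
  linarith

theorem N0_nonneg (hf : ND f) (x a : ℝ) : 0 ≤ N0 f x a :=
  integral_nonneg fun s => (mul_pos (hf.pos s) (Real.exp_pos _)).le

theorem N0_le (hC : 1 ≤ C) (hf : ND f) (ht : ∀ s, f s ≤ C * Real.exp (-|s| / C)) {a : ℝ}
    (ha : |a| < 1 / (2 * C)) (x : ℝ) : N0 f x a ≤ Z0 f a :=
  setIntegral_le_integral (int_0 hC hf ht ha)
    (Filter.Eventually.of_forall fun s => (mul_pos (hf.pos s) (Real.exp_pos _)).le)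

theorem N0_cont (hC : 1 ≤ C) (hf : ND f) (ht : ∀ s, f s ≤ C * Real.exp (-|s| / C)) {a : ℝ}
    (ha : |a| < 1 / (2 * C)) : Continuous (fun x => N0 f x a) := by
  rw [continuous_iff_continuousAt]
  intro x
  have h1 := (der_N hC hf ht ha x).continuousAt
  exact ContinuousAt.comp (f := fun x : ℝ => (x, a)) (x := x) h1
    (Continuous.continuousAt (by fun_prop))

theorem Z0_pos (hC : 1 ≤ C) (hf : ND f) (ht : ∀ s, f s ≤ C * Real.exp (-|s| / C)) {a : ℝ}
    (ha : |a| < 1 / (2 * C)) : 0 < Z0 f a := by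
  have h1 := N0_mono hC hf ht ha (show (0 : ℝ) < 1 by norm_num)
  exact lt_of_lt_of_le (lt_of_le_of_lt (N0_nonneg hf 0 a) h1) (N0_le hC hf ht ha 1)

theorem Z0_zero (hf : ND f) : Z0 f 0 = 1 := by
  unfold Z0
  rw [← hf.mass]
  simp

theorem abs_zero_lt (hC : 1 ≤ C) : |(0 : ℝ)| < 1 / (2 * C) := by
  rw [abs_zero]
  have : 0 < C := by linarith
  positivity

theorem N0_zero_mem (hC : 1 ≤ C) (hf : ND f) (ht : ∀ s, f s ≤ C * Real.exp (-|s| / C))
    (t : ℝ) : 0 < N0 f t 0 ∧ N0 f t 0 < 1 := by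
  have h0 := abs_zero_lt hC
  constructor
  · have h1 := N0_mono hC hf ht h0 (show t - 1 < t by linarith)
    exact lt_of_le_of_lt (N0_nonneg hf _ 0) h1
  · have h1 := N0_mono hC hf ht h0 (show t < t + 1 by linarith)
    have h2 := N0_le hC hf ht h0 (t + 1)
    rw [Z0_zero hf] at h2
    exact lt_of_lt_of_le h1 h2

theorem exists_T (hC : 1 ≤ C) (hf : ND f) (ht : ∀ s, f s ≤ C * Real.exp (-|s| / C)) {a : ℝ}
    (ha : |a| < 1 / (2 * C)) (t : ℝ) : ∃ x, N0 f x a = Z0 f a * N0 f t 0 := by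
  obtain ⟨h1, h2⟩ := N0_zero_mem hC hf ht t
  have hZ := Z0_pos hC hf ht ha
  have h3 : 0 < Z0 f a * N0 f t 0 := mul_pos hZ h1
  have h4 : Z0 f a * N0 f t 0 < Z0 f a := by nlinarith
  have t1 : Tendsto (fun x => N0 f x a) atTop (𝓝 (Z0 f a)) :=
    (aecover_Iic tendsto_id).integral_tendsto_of_countably_generated (int_0 hC hf ht ha)
  have t2 : Tendsto (fun x => ∫ s in Ioi x, f s * Real.exp (a * s)) atBot (𝓝 (Z0 f a)) :=
    (aecover_Ioi tendsto_id).integral_tendsto_of_countably_generated (int_0 hC hf ht ha)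
  have t3 : Tendsto (fun x => N0 f x a) atBot (𝓝 0) := by
    have h5 : ∀ x, N0 f x a = Z0 f a - ∫ s in Ioi x, f s * Real.exp (a * s) := by
      intro x
      have h6 := integral_add_compl (μ := volume) (f := fun s => f s * Real.exp (a * s))
        (measurableSet_Iic (a := x)) (int_0 hC hf ht ha)
      rw [compl_Iic] at h6
      unfold N0 Z0
      rw [← h6]
      ring
    simp only [h5]
    have h7 := (tendsto_const_nhds (x := Z0 f a)).sub t2
    rw [sub_self] at h7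
    exact h7
  have e1 : ∃ x, N0 f x a ≤ Z0 f a * N0 f t 0 :=
    ((t3.eventually (gt_mem_nhds h3)).mono fun x hx => le_of_lt hx).exists
  have e2 : ∃ x, Z0 f a * N0 f t 0 ≤ N0 f x a :=
    ((t1.eventually (lt_mem_nhds h4)).mono fun x hx => le_of_lt hx).exists
  exact mem_range_of_exists_le_of_exists_ge (N0_cont hC hf ht ha) e1 e2

/-- continuity of the transport -/
theorem T_cont (hC : 1 ≤ C) (hf : ND f) (ht : ∀ s, f s ≤ C * Real.exp (-|s| / C))
    (T : ℝ → ℝ → ℝ)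
    (hT : ∀ t a, |a| < 1 / (2 * C) → N0 f (T t a) a = Z0 f a * N0 f t 0) {a : ℝ}
    (ha : |a| < 1 / (2 * C)) (t : ℝ) : ContinuousAt (fun w : ℝ × ℝ => T w.1 w.2) (t, a) := by
  rw [Metric.continuousAt_iff']
  intro ε hε
  have h0 := abs_zero_lt hC
  have hR : ContinuousAt (fun w : ℝ × ℝ => Z0 f w.2 * N0 f w.1 0) (t, a) := by
    refine ContinuousAt.mul ?_ ?_
    · exact ContinuousAt.comp (f := fun w : ℝ × ℝ => w.2) (x := (t, a))
        (der_Z hC hf ht ha).continuousAt (Continuous.continuousAt (by fun_prop))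
    · exact ((N0_cont hC hf ht h0).comp continuous_fst).continuousAt
  have hL : ∀ x, ContinuousAt (fun w : ℝ × ℝ => N0 f x w.2) (t, a) := by
    intro x
    exact ContinuousAt.comp (f := fun w : ℝ × ℝ => (x, w.2)) (x := (t, a))
      (der_N hC hf ht ha x).continuousAt (Continuous.continuousAt (by fun_prop))
  have m1 := N0_mono hC hf ht ha (show T t a - ε < T t a by linarith)
  have m2 := N0_mono hC hf ht ha (show T t a < T t a + ε by linarith)
  simp only [hT t a ha] at m1 m2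
  have e1 := (hL (T t a - ε)).eventually_lt hR m1
  have e2 := hR.eventually_lt (hL (T t a + ε)) m2
  have e3 : ∀ᶠ w : ℝ × ℝ in 𝓝 (t, a), |w.2| < 1 / (2 * C) :=
    (isOpen_lt (by fun_prop) continuous_const).mem_nhds ha
  filter_upwards [e1, e2, e3] with w w1 w2 w3
  rw [← hT w.1 w.2 w3] at w1 w2
  have k1 := (N0_mono hC hf ht w3).lt_iff_lt.1 w1
  have k2 := (N0_mono hC hf ht w3).lt_iff_lt.1 w2
  rw [Real.dist_eq, abs_lt]
  constructor <;> linarith

/-- derivative of the transport -/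
theorem T_der (hC : 1 ≤ C) (hf : ND f) (ht : ∀ s, f s ≤ C * Real.exp (-|s| / C))
    (T : ℝ → ℝ → ℝ)
    (hT : ∀ t a, |a| < 1 / (2 * C) → N0 f (T t a) a = Z0 f a * N0 f t 0) {a : ℝ}
    (ha : |a| < 1 / (2 * C)) (t : ℝ) : HasFDerivAt (fun w : ℝ × ℝ => T w.1 w.2)
    ((Z0 f a * f t / (f (T t a) * Real.exp (a * T t a))) • ContinuousLinearMap.fst ℝ ℝ ℝ +
      (Da f (T t a) a) • ContinuousLinearMap.snd ℝ ℝ ℝ) (t, a) := by
  have h0 := abs_zero_lt hC
  have hZ := Z0_pos hC hf ht ha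
  have hp : 0 < f (T t a) * Real.exp (a * T t a) := mul_pos (hf.pos _) (Real.exp_pos _)
  obtain ⟨x, hx⟩ : ∃ x, x = T t a := ⟨_, rfl⟩
  obtain ⟨p, hpd⟩ : ∃ p, p = f (T t a) * Real.exp (a * T t a) := ⟨_, rfl⟩
  obtain ⟨q, hq⟩ : ∃ q, q = N1 f (T t a) a := ⟨_, rfl⟩
  have hp0 : p ≠ 0 := by rw [hpd]; exact hp.ne'
  -- the map `(x, a) ↦ (N0 x a, a)`
  have d1 : HasFDerivAt (fun w : ℝ × ℝ => (N0 f w.1 w.2, w.2))
      ((p • ContinuousLinearMap.fst ℝ ℝ ℝ + q • ContinuousLinearMap.snd ℝ ℝ ℝ).prod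
        (ContinuousLinearMap.snd ℝ ℝ ℝ)) (T t a, a) := by
    have h1 := der_N hC hf ht ha (T t a)
    rw [← hpd, ← hq] at h1
    exact h1.prodMk hasFDerivAt_snd
  -- the map `(t, a) ↦ (Z0 a * N0 t 0, a)`
  have d2 : HasFDerivAt (fun w : ℝ × ℝ => (Z0 f w.2 * N0 f w.1 0, w.2))
      (((Z0 f a * f t) • ContinuousLinearMap.fst ℝ ℝ ℝ +
        (Z1 f a * N0 f t 0) • ContinuousLinearMap.snd ℝ ℝ ℝ).prod
        (ContinuousLinearMap.snd ℝ ℝ ℝ)) (t, a) := by
    have h1 : HasDerivAt (fun b => Z0 f b) (Z1 f a) a := der_Z hC hf ht ha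
    have h2 : HasFDerivAt (fun w : ℝ × ℝ => Z0 f w.2)
        ((Z1 f a) • ContinuousLinearMap.snd ℝ ℝ ℝ) (t, a) :=
      h1.comp_hasFDerivAt (t, a) (f := fun w : ℝ × ℝ => w.2) hasFDerivAt_snd
    have h3 : HasFDerivAt (fun w : ℝ × ℝ => N0 f w.1 0)
        ((f t) • ContinuousLinearMap.fst ℝ ℝ ℝ) (t, a) := by
      have h4 := der_N hC hf ht h0 t
      have h5 := h4.comp (f := fun w : ℝ × ℝ => (w.1, (0 : ℝ))) (t, a)
        ((hasFDerivAt_fst (𝕜 := ℝ) (p := (t, a))).prodMk (hasFDerivAt_const (0 : ℝ) (t, a)))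
      refine h5.congr_fderiv ?_
      ext <;> simp
    have h4 := h2.mul h3
    refine (h4.congr_fderiv ?_).prodMk hasFDerivAt_snd
    ext <;> simp <;> ring
  have hg : ContinuousAt (fun w : ℝ × ℝ => (T w.1 w.2, w.2)) (t, a) :=
    (T_cont hC hf ht T hT ha t).prodMk continuousAt_snd
  have e3 : ∀ᶠ w : ℝ × ℝ in 𝓝 (t, a), |w.2| < 1 / (2 * C) :=
    (isOpen_lt (by fun_prop) continuous_const).mem_nhds ha
  have hcomp : (fun w : ℝ × ℝ => (N0 f w.1 w.2, w.2)) ∘ (fun w : ℝ × ℝ => (T w.1 w.2, w.2))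
      =ᶠ[𝓝 (t, a)] (fun w : ℝ × ℝ => (Z0 f w.2 * N0 f w.1 0, w.2)) := by
    filter_upwards [e3] with w hw
    show (N0 f (T w.1 w.2) w.2, w.2) = (Z0 f w.2 * N0 f w.1 0, w.2)
    rw [hT w.1 w.2 hw]
  obtain ⟨iv, hiv⟩ : ∃ iv : ℝ × ℝ →L[ℝ] ℝ × ℝ, iv =
      (p⁻¹ • (ContinuousLinearMap.fst ℝ ℝ ℝ - q • ContinuousLinearMap.snd ℝ ℝ ℝ)).prod
        (ContinuousLinearMap.snd ℝ ℝ ℝ) := ⟨_, rfl⟩
  have hli : Function.LeftInverse iv
      ((p • ContinuousLinearMap.fst ℝ ℝ ℝ + q • ContinuousLinearMap.snd ℝ ℝ ℝ).prod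
        (ContinuousLinearMap.snd ℝ ℝ ℝ)) := by
    intro w
    rw [hiv]
    ext
    · simp
      field_simp
    · simp
  have d3 := HasFDerivAt.of_comp_of_leftInverse (f'symm := iv) hg d1 d2 hcomp hli
  have d4 := d3.fst
  refine d4.congr_fderiv ?_
  have hN : N0 f (T t a) a / Z0 f a = N0 f t 0 := by
    rw [hT t a ha]
    field_simp
  have hDa : Da f (T t a) a = (Z1 f a * N0 f t 0 - q) / p := by
    unfold Da
    rw [← hpd, ← hq, mul_div_assoc, hN]
  rw [hiv, hDa, ← hpd]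
  ext
  · simp
    ring
  · simp
    ring

/-- Transport of a log-concave density to its exponential tilts. -/
theorem t1 : S_T1 := by
  intro C
  by_cases hC : 1 ≤ C
  swap
  · exact ⟨1, one_pos, fun f _ hob => absurd hob.one_le hC⟩
  have hC0 : 0 < C := by linarith
  refine ⟨1 / (2 * C), by positivity, fun f hf hob => ⟨?_, ?_⟩⟩
  · intro a ha
    refine int_gen hC hf hob.tail ha (fun s => 1 + s ^ 4) (by fun_prop) (fun s => ?_)
    rw [abs_of_nonneg (by positivity)]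
  · have h1 : ∀ t a : ℝ, ∃ x, |a| < 1 / (2 * C) → N0 f x a = Z0 f a * N0 f t 0 := by
      intro t a
      by_cases ha : |a| < 1 / (2 * C)
      · obtain ⟨x, hx⟩ := exists_T hC hf hob.tail ha t
        exact ⟨x, fun _ => hx⟩
      · exact ⟨0, fun h => absurd h ha⟩
    choose T hT using h1
    exact ⟨T, ⟨hT, fun t a ha => T_der hC hf hob.tail T hT ha t⟩⟩

end Pool.Agent.Y901.RG
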